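import Mathlib
import Pool.Agent.Q248.SR.Num

/-!
# Random sequences of forms of degree `d` over `F₂`: semi-regular below the degree `2 d`

In `B^(n) = F₂[X₁, …, Xₙ] / (X₁², …, Xₙ²)` all but a proportion `2 d 2 ^ (-t)`,
`t = ⌊n ^ d / (3 * 8 ^ d * d!)⌋`, of the `m`-tuples of homogeneous elements of degree `d`, for all
`m ≤ n ^ d / (3 * 8 ^ d * d!)`, have no relations `∑ μ_i λ_i = 0` with `μ_i` homogeneous of the same
degree less than `d`. In particular almost all `n`-tuples satisfy the condition of semi-regularity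
in the degrees below `2 d`.

Proof: union bound over the `μ`. If the `μ_i` span a space of dimension `k`, the leading sets of the
products `μ_i X_G` form the upper shadow of `k` sets, so that the rank of `λ ↦ ∑ μ_i λ_i` is at least
`k` times the ratio of two binomial coefficients.
-/

set_option autoImplicit false

namespace Pool.Agent.Results.MP_82575a_al.BelowTwiceTheDegree

open Finset Filter Topology
open Pool.Agent.Q248.SR

/-- `f` belongs to the ideal of `B^(n)` generated by the `lam j` with `j` in `J`. -/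
def InIdeal {n m : ℕ} (lam : Fin m → B n) (J : Finset (Fin m)) (f : B n) : Prop :=
  ∃ b : Fin m → B n, f = ∑ j ∈ J, mul (b j) (lam j)

/-- The condition of semi-regularity of the problem for `m` elements of degree `d`, in the degrees
below `D`: if `μ` is homogeneous of degree `e`, `e + d < D`, and `μ λ_i` belongs to the ideal
generated by `λ_1, …, λ_{i-1}`, then `μ` belongs to the ideal generated by `λ_1, …, λ_i`. (The
sequence is semi-regular if this holds for `D = ind (λ_1, …, λ_m)`.) -/
def SemiRegularBelow {n m : ℕ} (D d : ℕ) (lam : Fin m → B n) : Prop :=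
  ∀ (i : Fin m) (e : ℕ) (μ : B n), IsHomog e μ → e + d < D →
    InIdeal lam (Finset.Iio i) (mul μ (lam i)) → InIdeal lam (Finset.Iic i) μ

/-- There is no relation `∑ μ_i λ_i = 0` with `μ_i` homogeneous of the same degree `e < d`, not all
zero. -/
def RelationFree {n m : ℕ} (d : ℕ) (lam : Fin m → B n) : Prop :=
  ∀ e < d, ∀ μ : Fin m → B n, (∀ i, IsHomog e (μ i)) → ∑ i, mul (μ i) (lam i) = 0 → μ = 0

/-- The `m`-tuples of homogeneous elements of degree `d` of `B^(n)`. -/
def Tuples (n m d : ℕ) : Set (Fin m → B n) := {lam | ∀ i, IsHomog d (lam i)}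

theorem zero_mul' {n : ℕ} (g : B n) : mul 0 g = 0 := (mulL n).map_zero₂ g

theorem mul_zero' {n : ℕ} (g : B n) : mul g 0 = 0 := (mulL n g).map_zero

theorem semiRegular_of_free {n m d : ℕ} {lam : Fin m → B n} (hlam : lam ∈ Tuples n m d)
    (h : RelationFree d lam) : SemiRegularBelow (2 * d) d lam := by
  intro i e μ hμ hed hI
  obtain ⟨b, hb⟩ := hI
  have he : e < d := by omega
  have h1 : mul μ (lam i) = ∑ j ∈ Finset.Iio i, mul (comp e (b j)) (lam j) := by
    have h2 : comp (e + d) (mul μ (lam i)) = mul μ (lam i) := by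
      rw [comp_mul _ _ (hlam i), comp_of_homog hμ]
    rw [← h2, hb, comp_sum]
    exact sum_congr rfl fun j _ => comp_mul _ _ (hlam j)
  let ν : Fin m → B n := fun j => if j < i then comp e (b j) else if j = i then μ else 0
  have hν : ∀ j, IsHomog e (ν j) := by
    intro j
    simp only [ν]
    split_ifs
    · exact comp_homog _ _
    · exact hμ
    · intro S hS
      exact absurd rfl hS
  have hνi : ν i = μ := by simp [ν]
  have hsum : ∑ j, mul (ν j) (lam j) = 0 := by
    have h3 : ∑ j, mul (ν j) (lam j) = ∑ j ∈ Finset.Iic i, mul (ν j) (lam j) := by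
      refine (sum_subset (subset_univ _) ?_).symm
      intro j _ hj
      rw [Finset.mem_Iic, not_le] at hj
      have : ν j = 0 := by simp [ν, hj.not_gt, hj.ne']
      rw [this, zero_mul']
    rw [h3, ← Finset.Iio_insert, sum_insert (by simp), hνi]
    have h4 : ∑ j ∈ Finset.Iio i, mul (ν j) (lam j) = mul μ (lam i) := by
      rw [h1]
      refine sum_congr rfl fun j hj => ?_
      have : ν j = comp e (b j) := by simp [ν, Finset.mem_Iio.mp hj]
      rw [this]
    rw [h4]
    funext S
    exact CharTwo.add_self_eq_zero _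
  have h5 := congrFun (h e he ν hν hsum) i
  rw [hνi] at h5
  refine ⟨0, ?_⟩
  rw [h5]
  symm
  refine sum_eq_zero fun j _ => ?_
  exact zero_mul' _

theorem ne_zero_of_free {n m d : ℕ} (hd : 1 ≤ d) {lam : Fin m → B n} (h : RelationFree d lam)
    (i : Fin m) : lam i ≠ 0 := by
  intro h0
  have h1 := h 0 hd (Pi.single i (Pi.single ∅ 1)) ?_ ?_
  · have h2 := congrFun (congrFun h1 i) ∅
    rw [Pi.single_eq_same, Pi.single_eq_same] at h2
    exact one_ne_zero h2
  · intro j S hS
    by_cases hj : j = i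
    · subst hj
      rw [Pi.single_eq_same] at hS
      by_cases hS' : S = ∅
      · rw [hS', card_empty]
      · rw [Pi.single_eq_of_ne hS'] at hS
        exact absurd rfl hS
    · rw [Pi.single_eq_of_ne hj] at hS
      exact absurd rfl hS
  · refine sum_eq_zero fun j _ => ?_
    by_cases hj : j = i
    · subst hj
      rw [h0, mul_zero']
    · rw [Pi.single_eq_of_ne hj, zero_mul']

theorem ncard_eq {n m d : ℕ} (P : (Fin m → B n) → Prop) :
    {lam | lam ∈ Tuples n m d ∧ P lam}.ncard =
      Nat.card {l : Fin m → H n d // P fun i => (l i : B n)} := by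
  rw [← Nat.card_coe_set_eq]
  exact Nat.card_congr
    { toFun := fun x => ⟨fun i => ⟨x.1 i, x.2.1 i⟩, x.2.2⟩
      invFun := fun l => ⟨fun i => (l.1 i : B n), fun i => (l.1 i).2, l.2⟩
      left_inv := fun _ => rfl
      right_inv := fun _ => rfl }

theorem ncard_tuples (n m d : ℕ) : (Tuples n m d).ncard = Nat.card (Fin m → H n d) := by
  have h := ncard_eq (n := n) (m := m) (d := d) fun _ => True
  have h1 : {lam | lam ∈ Tuples n m d ∧ True} = Tuples n m d := by
    ext
    simp
  rw [h1] at h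
  rw [h]
  exact Nat.card_congr (Equiv.subtypeUnivEquiv fun _ => trivial)

theorem bad_count {n m d : ℕ} (hd : 1 ≤ d) (hn : 3 * 8 ^ d * d.factorial ≤ n)
    (hm : m * (3 * 8 ^ d * d.factorial) ≤ n ^ d) :
    ({lam | lam ∈ Tuples n m d ∧
        ¬ (RelationFree d lam ∧ SemiRegularBelow (2 * d) d lam)}.ncard : ℝ) ≤
      2 * d * (1 / 2) ^ (n ^ d / (3 * 8 ^ d * d.factorial)) * (Tuples n m d).ncard := by
  classical
  set t := n ^ d / (3 * 8 ^ d * d.factorial) with ht
  have hsub : {lam | lam ∈ Tuples n m d ∧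
        ¬ (RelationFree d lam ∧ SemiRegularBelow (2 * d) d lam)} ⊆
      {lam | lam ∈ Tuples n m d ∧ ∃ e ∈ range d, HasRel e lam} := by
    rintro lam ⟨h1, h2⟩
    refine ⟨h1, ?_⟩
    by_contra h3
    have h4 : RelationFree d lam := by
      intro e he μ hμ hs
      by_contra h5
      exact h3 ⟨e, mem_range.mpr he, μ, hμ, h5, hs⟩
    exact h2 ⟨h4, semiRegular_of_free h1 h4⟩
  have h1 := Set.ncard_le_ncard hsub (Set.toFinite _)
  rw [ncard_eq (fun lam => ∃ e ∈ range d, HasRel e lam)] at h1
  rw [ncard_tuples]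
  have : Fintype (H n d) := Fintype.ofFinite _
  have h2 : Nat.card {l : Fin m → H n d // ∃ e ∈ range d, HasRel e fun i => (l i : B n)} ≤
      ∑ e ∈ range d, Nat.card {l : Fin m → H n d // HasRel e fun i => (l i : B n)} := by
    simp only [Nat.card_eq_fintype_card, Fintype.card_subtype]
    refine le_trans (card_le_card ?_) card_biUnion_le
    intro l hl
    obtain ⟨e, he, h⟩ := (mem_filter.mp hl).2
    exact mem_biUnion.mpr ⟨e, he, mem_filter.mpr ⟨mem_univ _, h⟩⟩
  calc ({lam | lam ∈ Tuples n m d ∧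
        ¬ (RelationFree d lam ∧ SemiRegularBelow (2 * d) d lam)}.ncard : ℝ)
      ≤ ((∑ e ∈ range d,
          Nat.card {l : Fin m → H n d // HasRel e fun i => (l i : B n)} : ℕ) : ℝ) := by
        exact_mod_cast h1.trans h2
    _ = ∑ e ∈ range d,
          (Nat.card {l : Fin m → H n d // HasRel e fun i => (l i : B n)} : ℝ) := by push_cast; rfl
    _ ≤ ∑ e ∈ range d, 2 * (1 / 2 : ℝ) ^ t * Nat.card (Fin m → H n d) := by
        refine sum_le_sum fun e he => ?_
        exact rel_count (range_ok hd (mem_range.mp he) hn hm) (one_le_t hd hn)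
    _ = 2 * d * (1 / 2) ^ t * Nat.card (Fin m → H n d) := by
        rw [sum_const, card_range, nsmul_eq_mul]
        ring

/-- (1) For `1 ≤ d`, `n ≥ 3 * 8 ^ d * d!` and all `m ≤ n ^ d / (3 * 8 ^ d * d!)`, all but a proportion
`2 d 2 ^ (-t)`, `t = ⌊n ^ d / (3 * 8 ^ d * d!)⌋`, of the `m`-tuples of homogeneous elements of degree
`d` of `B^(n)` have no relation with coefficients of a degree less than `d`, and satisfy the
condition of semi-regularity in the degrees below `2 d`. (2) For each `d ≥ 2` the proportion of the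
`n`-tuples of nonzero homogeneous elements of degree `d` which satisfy the condition of
semi-regularity in the degrees below `2 d` tends to `1`. -/
theorem result :
    (∀ d n m : ℕ, 1 ≤ d → 3 * 8 ^ d * d.factorial ≤ n → m * (3 * 8 ^ d * d.factorial) ≤ n ^ d →
      ({lam | lam ∈ Tuples n m d ∧
          ¬ (RelationFree d lam ∧ SemiRegularBelow (2 * d) d lam)}.ncard : ℝ) ≤
        2 * d * (1 / 2) ^ (n ^ d / (3 * 8 ^ d * d.factorial)) * (Tuples n m d).ncard) ∧
    (∀ d : ℕ, 2 ≤ d → Tendsto (fun n : ℕ =>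
      ({lam | lam ∈ Tuples n n d ∧ (∀ i, lam i ≠ 0) ∧
          SemiRegularBelow (2 * d) d lam}.ncard : ℝ) /
        ({lam | lam ∈ Tuples n n d ∧ ∀ i, lam i ≠ 0}.ncard : ℝ)) atTop (𝓝 1)) := by
  refine ⟨fun d n m hd hn hm => bad_count hd hn hm, fun d hd => ?_⟩
  set K := 3 * 8 ^ d * d.factorial with hK
  have hlim : Tendsto (fun n : ℕ => 1 - 2 * (d : ℝ) * (1 / 2) ^ n) atTop (𝓝 1) := by
    have h1 : Tendsto (fun n : ℕ => (1 / 2 : ℝ) ^ n) atTop (𝓝 0) :=
      tendsto_pow_atTop_nhds_zero_of_lt_one (by norm_num) (by norm_num)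
    have h2 := (h1.const_mul (2 * (d : ℝ))).const_sub 1
    simpa using h2
  refine tendsto_of_tendsto_of_tendsto_of_le_of_le' hlim tendsto_const_nhds ?_ ?_
  · filter_upwards [eventually_ge_atTop (K + 1)] with n hn
    have hKn : K ≤ n := by omega
    have hn1 : 1 ≤ n := by omega
    have hsq : n * n ≤ n ^ d := by
      calc n * n = n ^ 2 := (sq n).symm
        _ ≤ n ^ d := Nat.pow_le_pow_right hn1 hd
    have hm : n * K ≤ n ^ d := (Nat.mul_le_mul_left n hKn).trans hsq
    have hb := bad_count (m := n) (by omega) hKn hm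
    rw [← hK] at hb
    have hK0 : 0 < K := by positivity
    have ht : n ≤ n ^ d / K := by
      rw [Nat.le_div_iff_mul_le hK0]
      exact hm
    set T := Tuples n n d with hT
    set G := {lam | lam ∈ T ∧ (∀ i, lam i ≠ 0) ∧ SemiRegularBelow (2 * d) d lam} with hG
    set T₀ := {lam | lam ∈ T ∧ ∀ i, lam i ≠ 0} with hT₀
    set Bad := {lam | lam ∈ T ∧ ¬ (RelationFree d lam ∧ SemiRegularBelow (2 * d) d lam)} with hBad
    have h1 : G.ncard ≤ T₀.ncard := Set.ncard_le_ncard (fun lam h => ⟨h.1, h.2.1⟩) (Set.toFinite _)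
    have h2 : T₀.ncard ≤ T.ncard := Set.ncard_le_ncard (fun lam h => h.1) (Set.toFinite _)
    have h3 : T.ncard ≤ G.ncard + Bad.ncard := by
      refine (Set.ncard_le_ncard ?_ (Set.toFinite _)).trans (Set.ncard_union_le _ _)
      intro lam h
      by_cases h4 : RelationFree d lam ∧ SemiRegularBelow (2 * d) d lam
      · exact Or.inl ⟨h, fun i => ne_zero_of_free (by omega) h4.1 i, h4.2⟩
      · exact Or.inr ⟨h, h4⟩
    have h1' : (G.ncard : ℝ) ≤ T₀.ncard := by exact_mod_cast h1
    have h2' : (T₀.ncard : ℝ) ≤ T.ncard := by exact_mod_cast h2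
    have h3' : (T.ncard : ℝ) ≤ G.ncard + Bad.ncard := by exact_mod_cast h3
    have hT0 : (0 : ℝ) ≤ T.ncard := Nat.cast_nonneg _
    have h4 : (Bad.ncard : ℝ) ≤ 2 * d * (1 / 2) ^ n * T.ncard := by
      refine hb.trans (mul_le_mul_of_nonneg_right ?_ hT0)
      refine mul_le_mul_of_nonneg_left ?_ (by positivity)
      exact pow_le_pow_of_le_one (by norm_num) (by norm_num) ht
    have hTpos : (0 : ℝ) < T.ncard := by
      have : (0 : Fin n → B n) ∈ T := by
        intro i S hS
        exact absurd rfl hS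
      exact_mod_cast (Set.ncard_pos (Set.toFinite _)).mpr ⟨_, this⟩
    rcases le_or_gt (1 - 2 * (d : ℝ) * (1 / 2) ^ n) 0 with h5 | h5
    · exact h5.trans (by positivity)
    · have h6 : (1 - 2 * (d : ℝ) * (1 / 2) ^ n) * T.ncard ≤ G.ncard := by linarith
      have h7 : (0 : ℝ) < T₀.ncard := lt_of_lt_of_le (mul_pos h5 hTpos) (h6.trans h1')
      rw [le_div_iff₀ h7]
      exact (mul_le_mul_of_nonneg_left h2' h5.le).trans h6
  · refine Eventually.of_forall fun n => ?_
    refine div_le_one_of_le₀ (Nat.cast_le.mpr (Set.ncard_le_ncard ?_ (Set.toFinite _)))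
      (Nat.cast_nonneg _)
    rintro lam ⟨h1, h2, _⟩
    exact ⟨h1, h2⟩

end Pool.Agent.Results.MP_82575a_al.BelowTwiceTheDegree
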